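import Pool.Agent.W795.TQ.OStm

/-!
TQD-ODE (helper347): the a priori bound on a short time interval.
-/

open MeasureTheory Set

namespace Pool.Agent.W347.TQ

/-- pointwise AM-GM -/
theorem pw {c y a w ν x : ℝ} (hν : 0 < ν) (hx : 0 < x) (ha : 0 ≤ a) (hw : 0 ≤ w) :
    2 * c * (y * (Real.sqrt a * Real.sqrt w)) ≤
      a ^ 2 / 2 + ν / 8 * (x * w ^ 2) +
        2 * c ^ 2 * y ^ 2 / Real.sqrt ν * x ^ (-(1/2) : ℝ) := by
  have hsν : 0 < Real.sqrt ν := Real.sqrt_pos.2 hν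
  have hsx : 0 < Real.sqrt x := Real.sqrt_pos.2 hx
  have e : x ^ (-(1/2) : ℝ) = (Real.sqrt x)⁻¹ := by
    rw [Real.rpow_neg hx.le, Real.sqrt_eq_rpow]
  have hS : (Real.sqrt a * Real.sqrt w) ^ 2 = a * w := by
    rw [mul_pow, Real.sq_sqrt ha, Real.sq_sqrt hw]
  have hκ : (Real.sqrt ν * Real.sqrt x) ^ 2 = ν * x := by
    rw [mul_pow, Real.sq_sqrt hν.le, Real.sq_sqrt hx.le]
  obtain ⟨S, hSd⟩ : ∃ S, S = Real.sqrt a * Real.sqrt w := ⟨_, rfl⟩
  obtain ⟨κ, hκd⟩ : ∃ κ, κ = Real.sqrt ν * Real.sqrt x := ⟨_, rfl⟩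
  have hκ0 : 0 < κ := by rw [hκd]; positivity
  have e2 : 2 * c ^ 2 * y ^ 2 / Real.sqrt ν * x ^ (-(1/2) : ℝ) = 2 * c ^ 2 * y ^ 2 / κ := by
    rw [e, hκd]
    field_simp
  rw [e2, ← hSd]
  rw [← hSd] at hS
  rw [← hκd] at hκ
  have h1 : 2 * c * (y * S) ≤ 2 * c ^ 2 * y ^ 2 / κ + κ * S ^ 2 / 2 := by
    have h2 : 2 * c ^ 2 * y ^ 2 / κ + κ * S ^ 2 / 2 - 2 * c * (y * S) =
        (2 * c * y - κ * S) ^ 2 / (2 * κ) := by
      field_simp
      ring
    have h3 : 0 ≤ (2 * c * y - κ * S) ^ 2 / (2 * κ) := by positivity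
    linarith
  have h4 : κ * S ^ 2 / 2 ≤ a ^ 2 / 2 + ν / 8 * (x * w ^ 2) := by
    rw [hS]
    have h5 : ν / 8 * (x * w ^ 2) = κ ^ 2 * w ^ 2 / 8 := by rw [hκ]; ring
    rw [h5]
    nlinarith [sq_nonneg (a - κ * w / 2)]
  linarith

theorem imono {f g : ℝ → ℝ} {a b : ℝ} (hab : a ≤ b) (h0 : ∀ s ∈ Ioc a b, 0 ≤ f s)
    (hg : IntegrableOn g (Ioc a b)) (hfg : ∀ᵐ s ∂(volume.restrict (Ioc a b)), f s ≤ g s) :
    ∫ s in a..b, f s ≤ ∫ s in a..b, g s := by
  rw [intervalIntegral.integral_of_le hab, intervalIntegral.integral_of_le hab]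
  exact integral_mono_of_nonneg ((ae_restrict_iff' measurableSet_Ioc).2 (ae_of_all _ h0)) hg hfg

theorem int_half {t0 r : ℝ} (hr : t0 ≤ r) :
    IntegrableOn (fun s => (s - t0) ^ (-(1/2) : ℝ)) (Ioc t0 r) ∧
      ∫ s in t0..r, (s - t0) ^ (-(1/2) : ℝ) = 2 * Real.sqrt (r - t0) := by
  have h1 : IntervalIntegrable (fun x : ℝ => x ^ (-(1/2) : ℝ)) volume 0 (r - t0) :=
    intervalIntegral.intervalIntegrable_rpow' (by norm_num)
  constructor
  · have h2 := h1.comp_sub_right t0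
    rw [zero_add, sub_add_cancel] at h2
    exact (intervalIntegrable_iff_integrableOn_Ioc_of_le hr).1 h2
  · rw [intervalIntegral.integral_comp_sub_right (fun x => x ^ (-(1/2) : ℝ)) t0, sub_self,
      integral_rpow (Or.inl (by norm_num))]
    have e : (-(1/2) : ℝ) + 1 = 1/2 := by norm_num
    rw [e, Real.zero_rpow (by norm_num), Real.sqrt_eq_rpow]
    ring

theorem claim {c : ℝ} (hc : 0 < c) {e1 : ℝ} (he1 : 0 < e1) (h14 : 14 * c ^ 4 * e1 ^ 2 ≤ 1 / 4)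
    (h4 : 4 * c ^ 2 * e1 ≤ 1 / 8) {ν t0 T Φ G A0 : ℝ} {a w g Y : ℝ → ℝ} (hν : 0 < ν)
    (hT : t0 < T) (hΦ : 0 ≤ Φ) (hG : 0 ≤ G)
    (ha0 : ∀ t, 0 ≤ a t) (hw0 : ∀ t, 0 ≤ w t) (hg0 : ∀ t, 0 ≤ g t) (hY0 : ∀ t, 0 ≤ Y t)
    (haL : MemLp a 2 (volume.restrict (Ioc t0 T))) (hwL : MemLp w 2 (volume.restrict (Ioc t0 T)))
    (hgL : MemLp g 2 (volume.restrict (Ioc t0 T)))
    (haA : ∀ᵐ t ∂(volume.restrict (Ioc t0 T)), a t ≤ A0)
    (hYc : ContinuousOn Y (Icc t0 T)) (hgG : ∫ s in t0..T, g s ^ 2 ≤ G)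
    (hI1 : ∀ t ∈ Icc t0 T, 2 * (∫ s in t0..t, a s ^ 2) + ν * Y t ^ 2 ≤ ν * Y t0 ^ 2
        + 2 * c * (∫ s in t0..t, Y s ^ 2 * (Real.sqrt (a s) * Real.sqrt (w s)))
        + 2 * Φ * (Y t + Y t0) + 2 * ∫ s in t0..t, g s * Y s)
    (hI2 : ∀ᵐ t ∂(volume.restrict (Ioc t0 T)),
        (t - t0) * a t ^ 2 + ν * (∫ s in t0..t, (s - t0) * w s ^ 2)
          ≤ (∫ s in t0..t, a s ^ 2) + 2 / ν * ((T - t0) * G)
            + 14 * c ^ 4 / ν ^ 3 * ∫ s in t0..t, (s - t0) * (a s ^ 2 * Y s ^ 4))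
    {t : ℝ} (ht : t ∈ Icc t0 T)
    (hθ : ∀ s ∈ Icc t0 t, Y s ^ 2 * Real.sqrt (T - t0) ≤ e1 * ν ^ (3 / 2 : ℝ)) :
    ∀ s ∈ Icc t0 t, Y s ^ 2 ≤ 26 * (Y t0 ^ 2 + (Φ ^ 2 + (T - t0) * G) / ν ^ 2) := by
  have hL0 : 0 ≤ (Φ ^ 2 + (T - t0) * G) / ν ^ 2 := by
    have : 0 ≤ (T - t0) * G := mul_nonneg (by linarith) hG
    positivity
  obtain ⟨r, hr, hmax⟩ := isCompact_Icc.exists_isMaxOn (nonempty_Icc.2 ht.1)
    ((hYc.mono (Icc_subset_Icc_right ht.2)).pow 2)
  have hmax' : ∀ s ∈ Icc t0 t, Y s ^ 2 ≤ Y r ^ 2 := fun s hs => hmax hs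
  suffices h : Y r ^ 2 ≤ 26 * (Y t0 ^ 2 + (Φ ^ 2 + (T - t0) * G) / ν ^ 2) from
    fun s hs => (hmax' s hs).trans h
  have hYt0 : 0 ≤ Y t0 ^ 2 := by positivity
  rcases eq_or_lt_of_le hr.1 with h0 | h0
  · rw [← h0]
    linarith
  have hrT : r ≤ T := hr.2.trans ht.2
  have hrI : r ∈ Icc t0 T := ⟨hr.1, hrT⟩
  obtain ⟨M, hM⟩ : ∃ M, M = Y r ^ 2 := ⟨_, rfl⟩
  have hM0 : 0 ≤ M := by rw [hM]; positivity
  have hYM : ∀ s ∈ Icc t0 r, Y s ^ 2 ≤ M := fun s hs => by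
    rw [hM]; exact hmax' s ⟨hs.1, hs.2.trans hr.2⟩
  have hMτ : M * Real.sqrt (T - t0) ≤ e1 * ν ^ (3 / 2 : ℝ) := by rw [hM]; exact hθ r hr
  obtain ⟨τ, hτ⟩ : ∃ τ, τ = T - t0 := ⟨_, rfl⟩
  have hτ0 : 0 < τ := by rw [hτ]; linarith
  rw [← hτ] at hI2 hMτ hL0 ⊢
  rw [← hM]
  have hντ : (ν ^ (3 / 2 : ℝ)) ^ 2 = ν ^ 3 := by
    rw [← Real.rpow_natCast, ← Real.rpow_mul hν.le, ← Real.rpow_natCast]
    norm_num
  have hM2τ : M ^ 2 * τ ≤ e1 ^ 2 * ν ^ 3 := by
    have h1 : (M * Real.sqrt τ) ^ 2 ≤ (e1 * ν ^ (3 / 2 : ℝ)) ^ 2 :=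
      pow_le_pow_left₀ (by positivity) hMτ 2
    rw [mul_pow, mul_pow, Real.sq_sqrt hτ0.le, hντ] at h1
    exact h1
  -- integrability
  have ha2 : IntegrableOn (fun s => a s ^ 2) (Ioc t0 T) := haL.integrable_sq
  have hw2 : IntegrableOn (fun s => w s ^ 2) (Ioc t0 T) := hwL.integrable_sq
  have hg2 : IntegrableOn (fun s => g s ^ 2) (Ioc t0 T) := hgL.integrable_sq
  have hsub : Ioc t0 r ⊆ Ioc t0 T := Ioc_subset_Ioc_right hrT
  have hxw : IntegrableOn (fun s => (s - t0) * w s ^ 2) (Ioc t0 T) := by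
    refine Integrable.mono' (g := fun s => τ * w s ^ 2) (hw2.const_mul τ) ?_ ?_
    · exact (continuous_id.sub continuous_const).aestronglyMeasurable.mul hw2.aestronglyMeasurable
    · refine (ae_restrict_iff' measurableSet_Ioc).2 (ae_of_all _ fun s hs => ?_)
      rw [Real.norm_eq_abs, abs_mul, abs_of_nonneg (by linarith [hs.1] : 0 ≤ s - t0),
        abs_of_nonneg (by positivity : 0 ≤ w s ^ 2)]
      apply mul_le_mul_of_nonneg_right _ (by positivity)
      rw [hτ]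
      linarith [hs.2]
  obtain ⟨A, hA⟩ : ∃ A, A = ∫ s in t0..r, a s ^ 2 := ⟨_, rfl⟩
  have hA0 : 0 ≤ A := by
    rw [hA]
    exact intervalIntegral.integral_nonneg h0.le (fun s _ => by positivity)
  obtain ⟨D, hD⟩ : ∃ D, D = A + 2 / ν * (τ * G) := ⟨_, rfl⟩
  have hD0 : 0 ≤ D := by rw [hD]; positivity
  have hI2r : ∀ᵐ s ∂(volume.restrict (Ioc t0 r)),
        (s - t0) * a s ^ 2 + ν * (∫ x in t0..s, (x - t0) * w x ^ 2)
          ≤ (∫ x in t0..s, a x ^ 2) + 2 / ν * (τ * G)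
            + 14 * c ^ 4 / ν ^ 3 * ∫ x in t0..s, (x - t0) * (a x ^ 2 * Y x ^ 4) :=
    ae_restrict_of_ae_restrict_of_subset hsub hI2
  have step : ∀ B : ℝ, 0 ≤ B → (∀ᵐ s ∂(volume.restrict (Ioc t0 r)), (s - t0) * a s ^ 2 ≤ B) →
      ∀ᵐ s ∂(volume.restrict (Ioc t0 r)),
        (s - t0) * a s ^ 2 + ν * (∫ x in t0..s, (x - t0) * w x ^ 2) ≤ D + B / 4 := by
    intro B hB hb
    filter_upwards [hI2r, ae_restrict_mem measurableSet_Ioc] with s hs hsm
    refine hs.trans ?_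
    have i1 : ∫ x in t0..s, a x ^ 2 ≤ A := by
      rw [hA]
      apply intervalIntegral.integral_mono_interval le_rfl hsm.1.le hsm.2
      · exact ae_of_all _ fun x => by positivity
      · exact (intervalIntegrable_iff_integrableOn_Ioc_of_le h0.le).2 (ha2.mono_set hsub)
    have i2 : ∫ x in t0..s, (x - t0) * (a x ^ 2 * Y x ^ 4) ≤ τ * (B * M ^ 2) := by
      have j1 : ∫ x in t0..s, (x - t0) * (a x ^ 2 * Y x ^ 4) ≤ ∫ _x in t0..s, B * M ^ 2 := by
        apply imono hsm.1.le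
        · intro x hx
          have : 0 ≤ x - t0 := by linarith [hx.1]
          positivity
        · exact integrableOn_const (by simp)
        · have hb' := ae_restrict_of_ae_restrict_of_subset
            (Ioc_subset_Ioc_right hsm.2 : Ioc t0 s ⊆ Ioc t0 r) hb
          filter_upwards [hb', ae_restrict_mem measurableSet_Ioc] with x hx hxm
          have k1 : Y x ^ 4 ≤ M ^ 2 := by
            have k2 := hYM x ⟨hxm.1.le, hxm.2.trans hsm.2⟩
            have k3 : Y x ^ 4 = (Y x ^ 2) ^ 2 := by ring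
            rw [k3]
            exact pow_le_pow_left₀ (by positivity) k2 2
          calc (x - t0) * (a x ^ 2 * Y x ^ 4) = ((x - t0) * a x ^ 2) * Y x ^ 4 := by ring
            _ ≤ B * M ^ 2 := mul_le_mul hx k1 (by positivity) hB
      rw [intervalIntegral.integral_const, smul_eq_mul] at j1
      refine j1.trans ?_
      apply mul_le_mul_of_nonneg_right _ (by positivity)
      rw [hτ]
      linarith [hsm.2]
    have i3 : 14 * c ^ 4 / ν ^ 3 * ∫ x in t0..s, (x - t0) * (a x ^ 2 * Y x ^ 4) ≤ B / 4 := by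
      have j1 : 14 * c ^ 4 / ν ^ 3 * ∫ x in t0..s, (x - t0) * (a x ^ 2 * Y x ^ 4) ≤
          14 * c ^ 4 / ν ^ 3 * (τ * (B * M ^ 2)) := mul_le_mul_of_nonneg_left i2 (by positivity)
      refine j1.trans ?_
      have j2 : 14 * c ^ 4 / ν ^ 3 * (τ * (B * M ^ 2)) = 14 * c ^ 4 / ν ^ 3 * B * (M ^ 2 * τ) := by
        ring
      rw [j2]
      calc 14 * c ^ 4 / ν ^ 3 * B * (M ^ 2 * τ) ≤ 14 * c ^ 4 / ν ^ 3 * B * (e1 ^ 2 * ν ^ 3) :=
            mul_le_mul_of_nonneg_left hM2τ (by positivity)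
        _ = (14 * c ^ 4 * e1 ^ 2) * B := by
            field_simp
        _ ≤ 1 / 4 * B := mul_le_mul_of_nonneg_right h14 hB
        _ = B / 4 := by ring
    rw [hD]
    linarith
  have hPnn : ∀ s ∈ Ioc t0 r, 0 ≤ ∫ x in t0..s, (x - t0) * w x ^ 2 := by
    intro s hs
    apply intervalIntegral.integral_nonneg hs.1.le
    intro x hx
    have : 0 ≤ x - t0 := by linarith [hx.1]
    positivity
  obtain ⟨B0, hB0⟩ : ∃ B0, B0 = τ * A0 ^ 2 := ⟨_, rfl⟩
  have hB00 : 0 ≤ B0 := by rw [hB0]; positivity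
  have iter : ∀ n : ℕ, ∀ᵐ s ∂(volume.restrict (Ioc t0 r)),
      (s - t0) * a s ^ 2 ≤ 4 / 3 * D + B0 * (1 / 4) ^ n := by
    intro n
    induction n with
    | zero =>
      have h1 := ae_restrict_of_ae_restrict_of_subset hsub haA
      filter_upwards [h1, ae_restrict_mem measurableSet_Ioc] with s hs hsm
      have k1 : a s ^ 2 ≤ A0 ^ 2 := pow_le_pow_left₀ (ha0 s) hs 2
      have k2 : (s - t0) * a s ^ 2 ≤ τ * A0 ^ 2 := by
        apply mul_le_mul _ k1 (by positivity) hτ0.le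
        rw [hτ]
        linarith [hsm.2]
      rw [pow_zero, mul_one, hB0]
      linarith
    | succ n ih =>
      have h1 := step (4 / 3 * D + B0 * (1 / 4) ^ n) (by positivity) ih
      filter_upwards [h1, ae_restrict_mem measurableSet_Ioc] with s hs hsm
      have h2 := mul_nonneg hν.le (hPnn s hsm)
      have e : (1 / 4 : ℝ) ^ (n + 1) = (1 / 4) ^ n * (1 / 4) := pow_succ _ _
      rw [e]
      linarith
  have hb : ∀ᵐ s ∂(volume.restrict (Ioc t0 r)), (s - t0) * a s ^ 2 ≤ 4 / 3 * D := by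
    have h1 := ae_all_iff.2 iter
    filter_upwards [h1] with s hs
    have hlim : Filter.Tendsto (fun n : ℕ => 4 / 3 * D + B0 * (1 / 4 : ℝ) ^ n) Filter.atTop
        (nhds (4 / 3 * D + B0 * 0)) :=
      tendsto_const_nhds.add
        ((tendsto_pow_atTop_nhds_zero_of_lt_one (by norm_num) (by norm_num)).const_mul B0)
    rw [mul_zero, add_zero] at hlim
    exact ge_of_tendsto' hlim hs
  -- the bound for `P`
  have hP : ν * (∫ x in t0..r, (x - t0) * w x ^ 2) ≤ 4 / 3 * D := by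
    have h1 := step (4 / 3 * D) (by positivity) hb
    have h2 : ∀ᵐ s ∂(volume.restrict (Ioc t0 r)),
        max (ν * (∫ x in t0..s, (x - t0) * w x ^ 2)) (4 / 3 * D) = 4 / 3 * D := by
      filter_upwards [h1, ae_restrict_mem measurableSet_Ioc] with s hs hsm
      apply max_eq_right
      have : 0 ≤ (s - t0) * a s ^ 2 := mul_nonneg (by linarith [hsm.1]) (by positivity)
      linarith
    have h3 : (fun s => max (ν * (∫ x in t0..s, (x - t0) * w x ^ 2)) (4 / 3 * D))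
        =ᵐ[volume.restrict (Icc t0 r)] fun _ => 4 / 3 * D := by
      rw [← restrict_Ioc_eq_restrict_Icc]
      exact h2
    have hcont : ContinuousOn (fun s => ∫ x in t0..s, (x - t0) * w x ^ 2) (Icc t0 r) := by
      have hi : IntegrableOn (fun s => (s - t0) * w s ^ 2) (uIcc t0 r) := by
        rw [uIcc_of_le h0.le, integrableOn_Icc_iff_integrableOn_Ioc]
        exact hxw.mono_set hsub
      have := intervalIntegral.continuousOn_primitive_interval hi
      rwa [uIcc_of_le h0.le] at this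
    have h4 := Measure.eqOn_Icc_of_ae_eq (μ := volume) h0.ne h3
      ((hcont.const_smul ν).sup continuousOn_const) continuousOn_const (right_mem_Icc.2 h0.le)
    simp only at h4
    rw [← h4]
    exact le_max_left _ _
  obtain ⟨P, hPd⟩ : ∃ P, P = ∫ x in t0..r, (x - t0) * w x ^ 2 := ⟨_, rfl⟩
  rw [← hPd] at hP
  -- the main term
  have hsν : 0 < Real.sqrt ν := Real.sqrt_pos.2 hν
  have ha2r := ha2.mono_set hsub
  have hxwr := hxw.mono_set hsub
  obtain ⟨hh1, hh2⟩ := int_half h0.le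
  have main : 2 * c * (∫ s in t0..r, Y s ^ 2 * (Real.sqrt (a s) * Real.sqrt (w s))) ≤
      A / 2 + ν / 8 * P + ν * M / 8 := by
    have j1 : 2 * c * (∫ s in t0..r, Y s ^ 2 * (Real.sqrt (a s) * Real.sqrt (w s))) ≤
        ∫ s in t0..r, (a s ^ 2 / 2 + ν / 8 * ((s - t0) * w s ^ 2) +
          2 * c ^ 2 * M ^ 2 / Real.sqrt ν * (s - t0) ^ (-(1/2) : ℝ)) := by
      rw [← intervalIntegral.integral_const_mul]
      apply imono h0.le
      · intro s _
        have := Real.sqrt_nonneg (a s)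
        have := Real.sqrt_nonneg (w s)
        positivity
      · exact ((ha2r.div_const 2).add (hxwr.const_mul (ν / 8))).add
          (hh1.const_mul (2 * c ^ 2 * M ^ 2 / Real.sqrt ν))
      · filter_upwards [ae_restrict_mem measurableSet_Ioc] with s hs
        have hx : 0 < s - t0 := by linarith [hs.1]
        refine (pw hν hx (ha0 s) (hw0 s)).trans ?_
        have hp : 0 ≤ (s - t0) ^ (-(1/2) : ℝ) := Real.rpow_nonneg hx.le _
        have hY2 := hYM s ⟨hs.1.le, hs.2⟩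
        have hY4 : (Y s ^ 2) ^ 2 ≤ M ^ 2 := pow_le_pow_left₀ (by positivity) hY2 2
        have : 2 * c ^ 2 * (Y s ^ 2) ^ 2 / Real.sqrt ν * (s - t0) ^ (-(1/2) : ℝ) ≤
            2 * c ^ 2 * M ^ 2 / Real.sqrt ν * (s - t0) ^ (-(1/2) : ℝ) := by
          apply mul_le_mul_of_nonneg_right _ hp
          apply div_le_div_of_nonneg_right _ hsν.le
          exact mul_le_mul_of_nonneg_left hY4 (by positivity)
        linarith
    have hi1 : IntervalIntegrable (fun s => a s ^ 2 / 2) volume t0 r :=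
      (intervalIntegrable_iff_integrableOn_Ioc_of_le h0.le).2 (ha2r.div_const 2)
    have hi2 : IntervalIntegrable (fun s => ν / 8 * ((s - t0) * w s ^ 2)) volume t0 r :=
      (intervalIntegrable_iff_integrableOn_Ioc_of_le h0.le).2 (hxwr.const_mul (ν / 8))
    have hi3 : IntervalIntegrable (fun s => 2 * c ^ 2 * M ^ 2 / Real.sqrt ν *
        (s - t0) ^ (-(1/2) : ℝ)) volume t0 r :=
      (intervalIntegrable_iff_integrableOn_Ioc_of_le h0.le).2 (hh1.const_mul _)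
    rw [intervalIntegral.integral_add (hi1.add hi2) hi3, intervalIntegral.integral_add hi1 hi2,
      intervalIntegral.integral_div, intervalIntegral.integral_const_mul,
      intervalIntegral.integral_const_mul, hh2, ← hA, ← hPd] at j1
    refine j1.trans ?_
    have k1 : Real.sqrt (r - t0) ≤ Real.sqrt τ := Real.sqrt_le_sqrt (by rw [hτ]; linarith)
    have k2 : 2 * c ^ 2 * M ^ 2 / Real.sqrt ν * (2 * Real.sqrt (r - t0)) ≤ ν * M / 8 := by
      have k3 : 2 * c ^ 2 * M ^ 2 / Real.sqrt ν * (2 * Real.sqrt (r - t0)) ≤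
          2 * c ^ 2 * M ^ 2 / Real.sqrt ν * (2 * Real.sqrt τ) :=
        mul_le_mul_of_nonneg_left (by linarith) (by positivity)
      refine k3.trans ?_
      have k4 : 2 * c ^ 2 * M ^ 2 / Real.sqrt ν * (2 * Real.sqrt τ) =
          4 * c ^ 2 / Real.sqrt ν * M * (M * Real.sqrt τ) := by ring
      rw [k4]
      have k5 : ν ^ (3 / 2 : ℝ) = ν * Real.sqrt ν := by
        rw [Real.sqrt_eq_rpow, show (3 / 2 : ℝ) = 1 + 1 / 2 by norm_num, Real.rpow_add hν,
          Real.rpow_one]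
      calc 4 * c ^ 2 / Real.sqrt ν * M * (M * Real.sqrt τ) ≤
            4 * c ^ 2 / Real.sqrt ν * M * (e1 * ν ^ (3 / 2 : ℝ)) :=
            mul_le_mul_of_nonneg_left hMτ (by positivity)
        _ = (4 * c ^ 2 * e1) * (ν * M) := by
            rw [k5]
            field_simp
        _ ≤ 1 / 8 * (ν * M) := mul_le_mul_of_nonneg_right h4 (by positivity)
        _ = ν * M / 8 := by ring
    linarith
  -- the force
  have hforce : 2 * (∫ s in t0..r, g s * Y s) ≤ 8 * τ * G / ν + ν * M / 8 := by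
    have j1 : 2 * (∫ s in t0..r, g s * Y s) ≤
        ∫ s in t0..r, (8 * τ / ν * g s ^ 2 + ν * M / (8 * τ)) := by
      rw [← intervalIntegral.integral_const_mul]
      apply imono h0.le
      · intro s _
        have := hg0 s
        have := hY0 s
        positivity
      · exact ((hg2.mono_set hsub).const_mul _).add (integrableOn_const (by simp))
      · filter_upwards [ae_restrict_mem measurableSet_Ioc] with s hs
        have hY2 := hYM s ⟨hs.1.le, hs.2⟩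
        have k1 : 2 * (g s * Y s) ≤ 8 * τ / ν * g s ^ 2 + ν / (8 * τ) * Y s ^ 2 := by
          have k2 : 8 * τ / ν * g s ^ 2 + ν / (8 * τ) * Y s ^ 2 - 2 * (g s * Y s) =
              (8 * τ * g s - ν * Y s) ^ 2 / (8 * τ * ν) := by
            field_simp
            ring
          have k3 : 0 ≤ (8 * τ * g s - ν * Y s) ^ 2 / (8 * τ * ν) := by positivity
          linarith
        have k4 : ν / (8 * τ) * Y s ^ 2 ≤ ν / (8 * τ) * M :=
          mul_le_mul_of_nonneg_left hY2 (by positivity)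
        have k5 : ν / (8 * τ) * M = ν * M / (8 * τ) := by ring
        linarith
    have hi1 : IntervalIntegrable (fun s => 8 * τ / ν * g s ^ 2) volume t0 r :=
      (intervalIntegrable_iff_integrableOn_Ioc_of_le h0.le).2 ((hg2.mono_set hsub).const_mul _)
    rw [intervalIntegral.integral_add hi1 intervalIntegrable_const,
      intervalIntegral.integral_const_mul, intervalIntegral.integral_const, smul_eq_mul] at j1
    have k1 : ∫ s in t0..r, g s ^ 2 ≤ G := by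
      refine le_trans ?_ hgG
      apply intervalIntegral.integral_mono_interval le_rfl h0.le hrT
      · exact ae_of_all _ fun x => by positivity
      · exact (intervalIntegrable_iff_integrableOn_Ioc_of_le hT.le).2 hg2
    have k2 : 8 * τ / ν * ∫ s in t0..r, g s ^ 2 ≤ 8 * τ / ν * G :=
      mul_le_mul_of_nonneg_left k1 (by positivity)
    have k3 : (r - t0) * (ν * M / (8 * τ)) ≤ τ * (ν * M / (8 * τ)) := by
      apply mul_le_mul_of_nonneg_right _ (by positivity)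
      rw [hτ]; linarith
    have k4 : τ * (ν * M / (8 * τ)) = ν * M / 8 := by field_simp
    have k5 : 8 * τ / ν * G = 8 * τ * G / ν := by ring
    linarith
  have hΦb : 2 * Φ * (Y r + Y t0) ≤ ν / 8 * (M + Y t0 ^ 2) + 16 * (Φ ^ 2 / ν) := by
    have k1 : ∀ y : ℝ, 2 * Φ * y ≤ ν / 8 * y ^ 2 + 8 * (Φ ^ 2 / ν) := by
      intro y
      have k2 : ν / 8 * y ^ 2 + 8 * (Φ ^ 2 / ν) - 2 * Φ * y = (ν * y - 8 * Φ) ^ 2 / (8 * ν) := by
        field_simp
        ring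
      have k3 : 0 ≤ (ν * y - 8 * Φ) ^ 2 / (8 * ν) := by positivity
      linarith
    have := k1 (Y r)
    have := k1 (Y t0)
    rw [hM]
    linarith
  have hfin := hI1 r hrI
  rw [← hA, ← hM] at hfin
  have hνP : ν / 8 * P ≤ D / 6 := by linarith
  have hDe : D = A + 2 * (τ * G / ν) := by rw [hD]; ring
  have e1' : 8 * τ * G / ν = 8 * (τ * G / ν) := by ring
  rw [e1'] at hforce
  have hq0 : 0 ≤ τ * G / ν := by positivity
  have hf2 : 5 / 8 * (ν * M) ≤ 9 / 8 * (ν * Y t0 ^ 2) + 16 * (Φ ^ 2 / ν + τ * G / ν) := by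
    linarith
  have hf3 : Φ ^ 2 / ν + τ * G / ν = ν * ((Φ ^ 2 + τ * G) / ν ^ 2) := by
    field_simp
  rw [hf3] at hf2
  have hf4 : ν * (5 / 8 * M) ≤ ν * (9 / 8 * Y t0 ^ 2 + 16 * ((Φ ^ 2 + τ * G) / ν ^ 2)) := by
    linarith
  have hf5 := le_of_mul_le_mul_left hf4 hν
  linarith

/-- TQD-ODE -/
theorem proof_ode : Pool.Agent.W795.TQ.S_ode := by
  intro c hc
  obtain ⟨e1, he1, h14, h4⟩ : ∃ e1 : ℝ, 0 < e1 ∧ 14 * c ^ 4 * e1 ^ 2 ≤ 1 / 4 ∧
      4 * c ^ 2 * e1 ≤ 1 / 8 := by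
    refine ⟨1 / (32 * c ^ 2), by positivity, ?_, ?_⟩
    · have : 14 * c ^ 4 * (1 / (32 * c ^ 2)) ^ 2 = 14 / 1024 := by
        field_simp
        norm_num
      rw [this]
      norm_num
    · have : 4 * c ^ 2 * (1 / (32 * c ^ 2)) = 1 / 8 := by
        field_simp
        norm_num
      rw [this]
  refine ⟨e1 / 52, 26, by positivity, by norm_num, ?_⟩
  intro ν t0 T Φ G A0 a w g Y hν hT hΦ hG ha0 hw0 hg0 hY0 haL hwL hgL haA hYc hgG hI1 hI2 hsmall
  have hτ0 : 0 < T - t0 := by linarith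
  have hsτ : 0 < Real.sqrt (T - t0) := Real.sqrt_pos.2 hτ0
  have hνp : 0 < ν ^ (3 / 2 : ℝ) := Real.rpow_pos_of_pos hν _
  obtain ⟨K, hK⟩ : ∃ K, K = Y t0 ^ 2 + (Φ ^ 2 + (T - t0) * G) / ν ^ 2 := ⟨_, rfl⟩
  have hL0 : 0 ≤ (Φ ^ 2 + (T - t0) * G) / ν ^ 2 := by positivity
  have hYK : Y t0 ^ 2 ≤ K := by rw [hK]; linarith
  have hcl := fun (t : ℝ) (ht : t ∈ Icc t0 T) => claim hc he1 h14 h4 hν hT hΦ hG ha0 hw0 hg0 hY0
    haL hwL hgL haA hYc hgG hI1 hI2 (t := t) ht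
  rw [← hK] at hsmall hcl ⊢
  have hK2 : 26 * K * Real.sqrt (T - t0) ≤ e1 * ν ^ (3 / 2 : ℝ) / 2 := by linarith
  -- no time reaches the threshold
  have hno : ∀ s ∈ Icc t0 T, Y s ^ 2 * Real.sqrt (T - t0) < e1 * ν ^ (3 / 2 : ℝ) := by
    by_contra hcon
    push Not at hcon
    obtain ⟨s, hs, hsθ⟩ := hcon
    have hYc2 : ContinuousOn (fun s => Y s ^ 2 * Real.sqrt (T - t0)) (Icc t0 T) :=
      (hYc.pow 2).mul continuousOn_const
    have hK0 : 0 ≤ K := by
      have : 0 ≤ Y t0 ^ 2 := by positivity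
      linarith
    have ht0 : Y t0 ^ 2 * Real.sqrt (T - t0) < e1 * ν ^ (3 / 2 : ℝ) := by
      have : Y t0 ^ 2 * Real.sqrt (T - t0) ≤ K * Real.sqrt (T - t0) :=
        mul_le_mul_of_nonneg_right hYK hsτ.le
      have h1 : 0 < e1 * ν ^ (3 / 2 : ℝ) := by positivity
      have h2 : 0 ≤ K * Real.sqrt (T - t0) := by positivity
      linarith
    set Z : Set ℝ := Icc t0 T ∩ (fun s => Y s ^ 2 * Real.sqrt (T - t0)) ⁻¹'
      Ici (e1 * ν ^ (3 / 2 : ℝ)) with hZ
    have hZc : IsCompact Z :=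
      isCompact_Icc.of_isClosed_subset (hYc2.preimage_isClosed_of_isClosed isClosed_Icc isClosed_Ici)
        inter_subset_left
    have hZn : Z.Nonempty := ⟨s, hs, hsθ⟩
    have h1 := hZc.sInf_mem hZn
    set t1 := sInf Z with ht1
    have hlow : ∀ x ∈ Icc t0 T, x < t1 → Y x ^ 2 * Real.sqrt (T - t0) < e1 * ν ^ (3 / 2 : ℝ) := by
      intro x hx hxt
      by_contra hc'
      push Not at hc'
      exact absurd (csInf_le hZc.bddBelow (show x ∈ Z from ⟨hx, hc'⟩)) (not_le.2 hxt)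
    -- the value at the first time
    have hsub : Icc t0 t1 ⊆ Icc t0 T := Icc_subset_Icc_right h1.1.2
    have hivt := intermediate_value_Icc h1.1.1 (hYc2.mono hsub)
    obtain ⟨t2, ht2, ht2e⟩ := hivt (show e1 * ν ^ (3 / 2 : ℝ) ∈ Icc _ _ from ⟨ht0.le, h1.2⟩)
    have ht21 : t2 = t1 := by
      apply le_antisymm ht2.2
      apply csInf_le hZc.bddBelow
      exact ⟨hsub ht2, le_of_eq ht2e.symm⟩
    rw [ht21] at ht2e
    have h2 := hcl t1 h1.1 (by
      intro x hx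
      rcases eq_or_lt_of_le hx.2 with h | h
      · rw [h]; exact le_of_eq ht2e
      · exact (hlow x ⟨hx.1, hx.2.trans h1.1.2⟩ h).le) t1 ⟨h1.1.1, le_rfl⟩
    have h3 : Y t1 ^ 2 * Real.sqrt (T - t0) ≤ 26 * K * Real.sqrt (T - t0) :=
      mul_le_mul_of_nonneg_right h2 hsτ.le
    have h4' : 0 < e1 * ν ^ (3 / 2 : ℝ) := by positivity
    simp only at ht2e
    linarith
  intro t ht
  exact hcl T ⟨hT.le, le_rfl⟩ (fun s hs => (hno s hs).le) t ht

end Pool.Agent.W347.TQ
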